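import Pool.Agent.N46.NS.Data

/-!
# Project AS (helper139), part TRV: algebra

The data of helper46 with an explicit endomorphism `η`, and normal subgroups of `E_3(A)` which contain its
image.
-/

set_option autoImplicit false
set_option linter.unusedSimpArgs false

namespace Pool.Agent.N692.AS

open Pool.Agent.N44.NS Pool.Agent.N46.NS

/-- the data of `data_main`, with an explicit `η` (copy of the proof of helper46) -/
theorem data2 (A : Type) [Ring A] [Nontrivial A] (x1 x2 y1 y2 : A) (hL : Leav x1 x2 y1 y2) :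
    ∃ (θ : E3 A →* E3 A) (h : E3 A) (p q : Fin 3 → A) (hqp : ∀ i, q i * p i = 1),
      Dat (E3 A) θ (ThE p q hqp) h := by
  have a1 := hL.r11
  have a2 := hL.r22
  have a3 := hL.r12
  have a4 := hL.r21
  have b1 : ∀ z, y1 * (x1 * z) = z := fun z => by rw [← mul_assoc, a1, one_mul]
  have b2 : ∀ z, y2 * (x2 * z) = z := fun z => by rw [← mul_assoc, a2, one_mul]
  have b3 : ∀ z, y1 * (x2 * z) = 0 := fun z => by rw [← mul_assoc, a3, zero_mul]
  have b4 : ∀ z, y2 * (x1 * z) = 0 := fun z => by rw [← mul_assoc, a4, zero_mul]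
  obtain ⟨u, hu⟩ : ∃ u : A, u = x1 * (y1 * y1) + x2 * (x1 * (y2 * y1)) + x2 * (x2 * y2) := ⟨_, rfl⟩
  obtain ⟨ui, hui⟩ : ∃ ui : A, ui = x1 * (x1 * y1) + x1 * (x2 * (y1 * y2)) + x2 * (y2 * y2) := ⟨_, rfl⟩
  have c1 : u * ui = 1 := by
    rw [hu, hui]
    simp only [mul_add, add_mul, mul_assoc, a1, a2, a3, a4, b1, b2, b3, b4, mul_zero, zero_mul,
      mul_one, one_mul, add_zero, zero_add]
    calc _ = x1 * y1 + x2 * ((x1 * y1 + x2 * y2) * y2) := by noncomm_ring
      _ = 1 := by rw [hL.rs, one_mul, hL.rs]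
  have c2 : ui * u = 1 := by
    rw [hu, hui]
    simp only [mul_add, add_mul, mul_assoc, a1, a2, a3, a4, b1, b2, b3, b4, mul_zero, zero_mul,
      mul_one, one_mul, add_zero, zero_add]
    calc _ = x1 * ((x1 * y1 + x2 * y2) * y1) + x2 * y2 := by noncomm_ring
      _ = 1 := by rw [hL.rs, one_mul, hL.rs]
  -- the relations
  have d1 : u * x1 * x1 = x1 := by
    rw [hu]
    simp only [mul_add, add_mul, mul_assoc, a1, a2, a3, a4, b1, b2, b3, b4, mul_zero, zero_mul,
      mul_one, one_mul, add_zero, zero_add]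
  have d2 : ui * x2 * x2 = x2 := by
    rw [hui]
    simp only [mul_add, add_mul, mul_assoc, a1, a2, a3, a4, b1, b2, b3, b4, mul_zero, zero_mul,
      mul_one, one_mul, add_zero, zero_add]
  have d3 : y1 * (y1 * ui) = y1 := by
    rw [hui]
    simp only [mul_add, add_mul, mul_assoc, a1, a2, a3, a4, b1, b2, b3, b4, mul_zero, zero_mul,
      mul_one, one_mul, add_zero, zero_add]
  have d4 : y2 * (y2 * u) = y2 := by
    rw [hu]
    simp only [mul_add, add_mul, mul_assoc, a1, a2, a3, a4, b1, b2, b3, b4, mul_zero, zero_mul,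
      mul_one, one_mul, add_zero, zero_add]
  have d5 : u * x1 * x2 = x2 * x1 := by
    rw [hu]
    simp only [mul_add, add_mul, mul_assoc, a1, a2, a3, a4, b1, b2, b3, b4, mul_zero, zero_mul,
      mul_one, one_mul, add_zero, zero_add]
  have d6 : ui * x2 * x1 = x1 * x2 := by
    rw [hui]
    simp only [mul_add, add_mul, mul_assoc, a1, a2, a3, a4, b1, b2, b3, b4, mul_zero, zero_mul,
      mul_one, one_mul, add_zero, zero_add]
  have d7 : y2 * (y1 * ui) = y1 * y2 := by
    rw [hui]
    simp only [mul_add, add_mul, mul_assoc, a1, a2, a3, a4, b1, b2, b3, b4, mul_zero, zero_mul,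
      mul_one, one_mul, add_zero, zero_add]
  have d8 : y1 * (y2 * u) = y2 * y1 := by
    rw [hu]
    simp only [mul_add, add_mul, mul_assoc, a1, a2, a3, a4, b1, b2, b3, b4, mul_zero, zero_mul,
      mul_one, one_mul, add_zero, zero_add]
  have d9 : ui * (u * u) = u := by rw [← mul_assoc, c2, one_mul]
  have f1 : u * u * (ui * ui) = 1 := by
    calc u * u * (ui * ui) = u * (u * ui) * ui := by simp only [mul_assoc]
      _ = 1 := by rw [c1, mul_one, c1]
  have f2 : ui * ui * (u * u) = 1 := by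
    calc ui * ui * (u * u) = ui * (ui * u) * u := by simp only [mul_assoc]
      _ = 1 := by rw [c2, mul_one, c2]
  -- the element
  obtain ⟨g1, hg1, hg1v⟩ := w01 u ui c1 c2
  obtain ⟨g2, hg2, hg2v⟩ := w12 (u * u) (ui * ui) f1 f2
  refine ⟨_, _, _, _, _, dat_of ![x1, x1, x2] ![y1, y1, y2] ![x2 * x1, x2 * x1, x1 * x2]
    ![y1 * y2, y1 * y2, y2 * y1] ![x1, x1, x2 * x2] ![y1, y1, y2 * y2] ![x2, x2, x2 * x1]
    ![y2, y2, y1 * y2] ![u, u, ui * ui] ![ui, ui, u * u]
    ?_ ?_ ?_ ?_ ?_ ?_ ?_ ?_ ?_ ?_ ?_ ?_ (g1 * g2) (mul_mem hg1 hg2) ?_⟩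
  · intro i
    fin_cases i <;> simp [a1, a2]
  · intro i
    fin_cases i <;> simp [mul_assoc, a1, a2, b1, b2]
  · intro i
    fin_cases i <;> simp [b3, b4]
  · intro i
    fin_cases i <;> simp [mul_assoc, a3, a4]
  · intro i
    fin_cases i <;> simp [mul_assoc, a1, a2, b2]
  · intro i
    fin_cases i <;> simp [mul_assoc, a1, a2, b2]
  · intro i
    fin_cases i
    · exact c1
    · exact c1
    · exact f2
  · intro i
    fin_cases i
    · exact c2
    · exact c2
    · exact f1
  · intro i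
    fin_cases i
    · exact d1
    · exact d1
    · change ui * ui * x2 * (x2 * x2) = x2
      calc ui * ui * x2 * (x2 * x2) = ui * (ui * x2 * x2) * x2 := by simp only [mul_assoc]
        _ = x2 := by rw [d2, d2]
  · intro i
    fin_cases i
    · exact d3
    · exact d3
    · change y2 * y2 * (y2 * (u * u)) = y2
      calc y2 * y2 * (y2 * (u * u)) = y2 * (y2 * (y2 * u)) * u := by simp only [mul_assoc]
        _ = y2 := by rw [d4, mul_assoc, d4]
  · intro i
    fin_cases i
    · exact d5
    · exact d5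
    · change ui * ui * x2 * (x2 * x1) = x1 * x2
      calc ui * ui * x2 * (x2 * x1) = ui * (ui * x2 * x2) * x1 := by simp only [mul_assoc]
        _ = x1 * x2 := by rw [d2, d6]
  · intro i
    fin_cases i
    · exact d7
    · exact d7
    · change y1 * y2 * (y2 * (u * u)) = y2 * y1
      calc y1 * y2 * (y2 * (u * u)) = y1 * (y2 * (y2 * u)) * u := by simp only [mul_assoc]
        _ = y2 * y1 := by rw [d4, mul_assoc, d8]
  · rw [Units.val_mul, hg1v, hg2v, Matrix.diagonal_mul_diagonal]
    congr 1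
    funext i
    fin_cases i
    · exact mul_one u
    · exact d9
    · exact one_mul _

/-- a normal subgroup which contains the image of `η` is everything -/
theorem normal_top {A : Type} [Ring A] (p q : Fin 3 → A) (hqp : ∀ i, q i * p i = 1)
    (M : Subgroup (E3 A)) (hM : M.Normal) (h : ∀ x, ThE p q hqp x ∈ M) : M = ⊤ := by
  apply top_of
  intro m l hml a
  obtain ⟨j, hmj, hjl⟩ := third m l
  have s1 : ∀ a', eE m j hmj (a' * q j) ∈ M := by
    intro a'
    have e1 : eE l j hjl.symm (p l * a' * q j) ∈ M := by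
      rw [← ThE_eE p q hqp]
      exact h _
    have e2 := eE_comm m l j hml hjl.symm hmj (q l) (p l * a' * q j)
    have e3 : q l * (p l * a' * q j) = a' * q j := by
      rw [← mul_assoc, ← mul_assoc, hqp, one_mul]
    rw [e3] at e2
    rw [e2]
    exact M.mul_mem (hM.conj_mem _ e1 _) (M.inv_mem e1)
  have e4 := eE_comm m j l hmj hjl hml (a * q j) (p j)
  have e5 : a * q j * p j = a := by rw [mul_assoc, hqp, mul_one]
  rw [e5] at e4
  rw [e4]
  have := M.mul_mem (s1 a) (hM.conj_mem _ (M.inv_mem (s1 a)) (eE j l hjl (p j)))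
  rwa [← mul_assoc, ← mul_assoc] at this

end Pool.Agent.N692.AS
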