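import Pool.Agent.N139.AS.Stm2
import Pool.Agent.N52.ST.Final
import Pool.Agent.N303.KQ.FG
import Pool.Agent.N169.NS.TT
import Pool.Agent.N692.AS.TRVa

/-!
# Project AS (helper139), part TRV

Asymptotic homomorphisms of the elementary group of the Leavitt algebra to the unitary groups are trivial.
-/

set_option autoImplicit false

namespace Pool.Agent.N692.AS

open Finset Matrix Filter Topology
open Pool.Agent.N44.NS Pool.Agent.N46.NS
open Pool.Agent.N139.AS (UU S_TRV)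
open Pool.Agent.H698R3.Amalg (fro hsDist hsDist_self hsDist_comm hsDist_tri hsDist_left
  hsDist_right fro_eq_re)
open Pool.Agent.W661.RC (HasT)
open scoped ComplexOrder

theorem hsDist_nonneg {d : ℕ} (A B : Matrix (Fin d) (Fin d) ℂ) : 0 ≤ hsDist A B :=
  Real.sqrt_nonneg _

theorem hsDist_sq {d : ℕ} (hd : 0 < d) (A B : Matrix (Fin d) (Fin d) ℂ) :
    fro (A - B) = hsDist A B ^ 2 * d := by
  have hd' : (0 : ℝ) < d := by exact_mod_cast hd
  unfold hsDist
  rw [Real.sq_sqrt, ← fro_eq_re, Fintype.card_fin, div_mul_cancel₀ _ hd'.ne']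
  rw [← fro_eq_re]
  exact div_nonneg (Pool.Agent.H698R3.Amalg.fro_nonneg _) (Nat.cast_nonneg _)

theorem hsDist_zero {d : ℕ} (hd : d = 0) (A B : Matrix (Fin d) (Fin d) ℂ) : hsDist A B = 0 := by
  subst hd
  unfold hsDist
  simp

theorem inv_left {d : ℕ} (u v : UU d) : hsDist (u⁻¹ * v).1 1 = hsDist v.1 u.1 := by
  have h := hsDist_left u (u⁻¹ * v).1 1
  have e : u.1 * (u⁻¹ * v).1 = v.1 := by
    have : u * (u⁻¹ * v) = v := by group
    exact congrArg Subtype.val this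
  rw [e, mul_one] at h
  exact h.symm

/-- the null sequences -/
def Nul (k : ℕ → ℕ) : Subgroup (∀ n, UU (k n)) where
  carrier := {u | Tendsto (fun n => hsDist (u n).1 1) atTop (𝓝 0)}
  mul_mem' := by
    intro u v hu hv
    have hu' : Tendsto (fun n => hsDist (u n).1 1) atTop (𝓝 0) := hu
    have hv' : Tendsto (fun n => hsDist (v n).1 1) atTop (𝓝 0) := hv
    have h := hv'.add hu'
    rw [add_zero] at h
    refine tendsto_of_tendsto_of_tendsto_of_le_of_le tendsto_const_nhds h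
      (fun n => hsDist_nonneg _ _) fun n => ?_
    have h1 := hsDist_tri ((u n).1 * (v n).1) ((u n).1 * 1) 1
    rw [hsDist_left, mul_one] at h1
    exact h1
  one_mem' := by
    show Tendsto (fun n => hsDist (1 : Matrix (Fin (k n)) (Fin (k n)) ℂ) 1) atTop (𝓝 0)
    simp only [hsDist_self]
    exact tendsto_const_nhds
  inv_mem' := by
    intro u hu
    have hu' : Tendsto (fun n => hsDist (u n).1 1) atTop (𝓝 0) := hu
    show Tendsto (fun n => hsDist ((u n)⁻¹).1 1) atTop (𝓝 0)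
    have e : ∀ n, hsDist ((u n)⁻¹).1 1 = hsDist (u n).1 1 := by
      intro n
      have h := inv_left (u n) 1
      rw [mul_one] at h
      rw [h, hsDist_comm]
      rfl
    simp only [e]
    exact hu'

instance (k : ℕ → ℕ) : (Nul k).Normal where
  conj_mem := by
    intro u hu g
    have hu' : Tendsto (fun n => hsDist (u n).1 1) atTop (𝓝 0) := hu
    show Tendsto (fun n => hsDist (g n * u n * (g n)⁻¹).1 1) atTop (𝓝 0)
    have e : ∀ n, hsDist (g n * u n * (g n)⁻¹).1 1 = hsDist (u n).1 1 := by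
      intro n
      have h := hsDist_right (g n) (g n * u n * (g n)⁻¹).1 1
      have e1 : (g n * u n * (g n)⁻¹).1 * (g n).1 = (g n).1 * (u n).1 := by
        have : g n * u n * (g n)⁻¹ * g n = g n * u n := by group
        exact congrArg Subtype.val this
      rw [e1, one_mul] at h
      rw [← h]
      have h2 := hsDist_left (g n) (u n).1 1
      rw [mul_one] at h2
      exact h2
    simp only [e]
    exact hu'

theorem mk_eq (k : ℕ → ℕ) (u v : ∀ n, UU (k n)) :
    (QuotientGroup.mk u : (∀ n, UU (k n)) ⧸ Nul k) = QuotientGroup.mk v ↔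
      Tendsto (fun n => hsDist (v n).1 (u n).1) atTop (𝓝 0) := by
  rw [QuotientGroup.eq]
  show Tendsto (fun n => hsDist ((u n)⁻¹ * v n).1 1) atTop (𝓝 0) ↔ _
  simp only [inv_left]

/-- the finite form of the commutation theorem, in terms of normalized distances -/
theorem fm_dist (G : Type) [Group G] (K : Subgroup G) (hT : HasT G) (hTK : HasT K)
    (hgen : Subgroup.closure {g : G | ∀ k ∈ K, g⁻¹ * k * g ∈ K} = ⊤)
    (m : ℕ) (γ : FreeGroup (Fin m) →* G) (hγ : Function.Surjective γ)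
    (h : G) (hmono : ∀ k ∈ K, h⁻¹ * k * h ∈ K) (x : FreeGroup (Fin m)) (hx : h⁻¹ * γ x * h ∈ K)
    (ε : ℝ) (hε : 0 < ε) :
    ∃ (δ : ℝ) (R S : Finset (FreeGroup (Fin m))), 0 < δ ∧
      (∀ w ∈ R, γ w = 1) ∧ (∀ w ∈ S, γ w ∈ K) ∧
      ∀ (d : ℕ) (U : FreeGroup (Fin m) →* UU d) (V : UU d),
        (∀ w ∈ R, hsDist (U w).1 1 ^ 2 ≤ δ) →
        (∀ w ∈ S, hsDist ((U w).1 * V.1) (V.1 * (U w).1) ^ 2 ≤ δ) →
        hsDist ((U x).1 * V.1) (V.1 * (U x).1) < ε := by
  obtain ⟨δ, R, S, hδ, hR', hS, hfm⟩ := Pool.Agent.N52.ST.fm_main G K hT hTK hgen m γ hγ h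
    hmono x hx (ε ^ 2 / 4) (by positivity)
  refine ⟨δ, R, S, hδ, hR', hS, fun d U V h1 h2 => ?_⟩
  rcases Nat.eq_zero_or_pos d with hk0 | hk0
  · rw [hsDist_zero hk0]
    exact hε
  have hk0' : (0 : ℝ) < d := by exact_mod_cast hk0
  have hU : ∀ w, FreeGroup.lift (fun s => U (FreeGroup.of s)) w = U w := by
    intro w
    have h3 : FreeGroup.lift (fun s => U (FreeGroup.of s)) = U := by
      apply FreeGroup.ext_hom
      intro s
      simp
    rw [h3]
  have e1 : ∀ A B : Matrix (Fin d) (Fin d) ℂ, Pool.Agent.W661.RC.hs (A - B) = hsDist A B ^ 2 * d :=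
    fun A B => hsDist_sq hk0 A B
  have hV : Pool.Agent.W661.RC.Le (V.1ᴴ * V.1) 1 := by
    show (1 - V.1ᴴ * V.1 : Matrix (Fin d) (Fin d) ℂ).PosSemidef
    rw [Pool.Agent.H698R3.Amalg.uh_mul, sub_self]
    exact Matrix.PosSemidef.zero
  have hA : ∀ w ∈ R, Pool.Agent.W661.RC.hs
      ((FreeGroup.lift (fun s => U (FreeGroup.of s)) w : Matrix (Fin d) (Fin d) ℂ) - 1) ≤ δ * d := by
    intro w hw
    rw [hU, e1]
    exact mul_le_mul_of_nonneg_right (h1 w hw) hk0'.le
  have hB : ∀ w ∈ S, Pool.Agent.W661.RC.hs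
      ((FreeGroup.lift (fun s => U (FreeGroup.of s)) w : Matrix (Fin d) (Fin d) ℂ) * V.1 -
        V.1 * (FreeGroup.lift (fun s => U (FreeGroup.of s)) w : Matrix (Fin d) (Fin d) ℂ))
        ≤ δ * d := by
    intro w hw
    rw [hU, e1]
    exact mul_le_mul_of_nonneg_right (h2 w hw) hk0'.le
  have h3 := hfm d (fun s => U (FreeGroup.of s)) V.1 hk0 hA hV hB
  rw [hU, e1] at h3
  have h4 := le_of_mul_le_mul_right h3 hk0'
  have h5 : hsDist ((U x).1 * V.1) (V.1 * (U x).1) ≤ ε / 2 := by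
    refine abs_le_of_sq_le_sq' ?_ (by positivity) |>.2
    refine h4.trans (le_of_eq ?_)
    ring
  linarith

theorem mk_mul_eq (k : ℕ → ℕ) (u v : ∀ n, UU (k n)) :
    (QuotientGroup.mk (v * u) : (∀ n, UU (k n)) ⧸ Nul k) = QuotientGroup.mk (u * v) ↔
      Tendsto (fun n => hsDist ((u n).1 * (v n).1) ((v n).1 * (u n).1)) atTop (𝓝 0) :=
  mk_eq k (v * u) (u * v)

/-- commutation in the quotient by the null sequences -/
theorem comm_of (G : Type) [Group G] (K : Subgroup G) (hT : HasT G) (hTK : HasT K)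
    (hgen : Subgroup.closure {g : G | ∀ k ∈ K, g⁻¹ * k * g ∈ K} = ⊤)
    (k : ℕ → ℕ) (Φ : G →* (∀ n, UU (k n)) ⧸ Nul k)
    (h : G) (hmono : ∀ k ∈ K, h⁻¹ * k * h ∈ K) (a b : G) (ha : h⁻¹ * a * h ∈ K)
    (hb : ∀ c ∈ K, c * b = b * c) : Φ a * Φ b = Φ b * Φ a := by
  obtain ⟨m, γ, hγ⟩ := Pool.Agent.N303.KQ.exists_free hT
  obtain ⟨f, hf⟩ : ∃ f : G → (∀ n, UU (k n)), ∀ g, QuotientGroup.mk (f g) = Φ g :=
    ⟨fun g => (QuotientGroup.mk_surjective (Φ g)).choose,
      fun g => (QuotientGroup.mk_surjective (Φ g)).choose_spec⟩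
  obtain ⟨L, hLd⟩ : ∃ L : FreeGroup (Fin m) →* (∀ n, UU (k n)),
      ∀ s, L (FreeGroup.of s) = f (γ (FreeGroup.of s)) :=
    ⟨FreeGroup.lift (fun s => f (γ (FreeGroup.of s))), fun s => FreeGroup.lift_apply_of⟩
  have hLΦ : ∀ w, (QuotientGroup.mk (L w) : (∀ n, UU (k n)) ⧸ Nul k) = Φ (γ w) := by
    intro w
    have h1 : (QuotientGroup.mk' (Nul k)).comp L = Φ.comp γ := by
      apply FreeGroup.ext_hom
      intro s
      rw [MonoidHom.comp_apply, MonoidHom.comp_apply, hLd]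
      exact hf _
    exact congrFun (congrArg DFunLike.coe h1) w
  obtain ⟨x, hx⟩ := hγ a
  have hxK : h⁻¹ * γ x * h ∈ K := by rw [hx]; exact ha
  rw [← hx, ← hLΦ, ← hf b, ← QuotientGroup.mk_mul, ← QuotientGroup.mk_mul, mk_mul_eq,
    Metric.tendsto_atTop]
  intro ε hε
  obtain ⟨δ, R, S, hδ, hR', hS, hfm⟩ := fm_dist G K hT hTK hgen m γ hγ h hmono x hxK ε hε
  have hsmall : ∀ f : ℕ → ℝ, Tendsto f atTop (𝓝 0) → ∀ᶠ n in atTop, f n ^ 2 ≤ δ := by
    intro f hf
    have h1 : Tendsto (fun n => f n ^ 2) atTop (𝓝 0) := by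
      have := hf.pow 2
      simpa using this
    exact h1.eventually (ge_mem_nhds hδ)
  have hevR : ∀ᶠ n in atTop, ∀ w ∈ R, hsDist (L w n).1 1 ^ 2 ≤ δ := by
    rw [Filter.eventually_all_finset]
    intro w hw
    apply hsmall
    have h1 : (QuotientGroup.mk (1 : ∀ n, UU (k n)) : (∀ n, UU (k n)) ⧸ Nul k) =
        QuotientGroup.mk (L w) := by
      rw [hLΦ, hR' w hw, map_one]
      rfl
    exact (mk_eq k 1 (L w)).1 h1
  have hevS : ∀ᶠ n in atTop, ∀ w ∈ S,
      hsDist ((L w n).1 * (f b n).1) ((f b n).1 * (L w n).1) ^ 2 ≤ δ := by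
    rw [Filter.eventually_all_finset]
    intro w hw
    apply hsmall
    have h1 : (QuotientGroup.mk (f b * L w) : (∀ n, UU (k n)) ⧸ Nul k) =
        QuotientGroup.mk (L w * f b) := by
      rw [QuotientGroup.mk_mul, QuotientGroup.mk_mul, hLΦ, hf b, ← map_mul, ← map_mul,
        hb _ (hS w hw)]
    exact (mk_mul_eq k _ _).1 h1
  obtain ⟨n0, hn0⟩ := Filter.eventually_atTop.1 (hevR.and hevS)
  refine ⟨n0, fun n hn => ?_⟩
  obtain ⟨h1, h2⟩ := hn0 n hn
  rw [Real.dist_eq, sub_zero, abs_of_nonneg (hsDist_nonneg _ _), hsDist_comm]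
  exact hfm (k n) ((Pi.evalMonoidHom _ n).comp L) (f b n) h1 h2

/-- Asymptotic homomorphisms of the elementary group of the Leavitt algebra are trivial. -/
theorem t_TRV : S_TRV := by
  intro K _ _ A _ _ _ x1 x2 y1 y2 hK hR hg k φ hφ a
  have hT : HasT (E3 A) := Pool.Agent.N169.NS.t_TT K hK A _ hg
  obtain ⟨θ, h, p, q, hqp, hD⟩ := data2 A x1 x2 y1 y2 hR
  set η := ThE p q hqp with hη
  -- the homomorphism to the quotient
  let Φ : E3 A →* ((∀ n, UU (k n)) ⧸ Nul k) := MonoidHom.mk'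
    (fun g => QuotientGroup.mk (fun n => φ n g)) (by
      intro x y
      rw [← QuotientGroup.mk_mul]
      rw [mk_eq]
      exact hφ x y)
  have hΦ : ∀ g, Φ g = QuotientGroup.mk (fun n => φ n g) := fun g => rfl
  -- the subgroup
  set K₁ : Subgroup (E3 A) := θ.range with hK₁
  have hTK : HasT K₁ :=
    Pool.Agent.N52.ST.hasT_of_surjective θ.rangeRestrict θ.rangeRestrict_surjective hT
  have hiff : ∀ g : E3 A, (∀ x ∈ K₁, g⁻¹ * x * g ∈ K₁) ↔ ∀ a, ∃ b, θ a = g * θ b * g⁻¹ := by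
    intro g
    constructor
    · intro h1 a
      obtain ⟨b, hb⟩ := h1 (θ a) ⟨a, rfl⟩
      refine ⟨b, ?_⟩
      rw [hb]
      group
    · rintro h1 x ⟨a, rfl⟩
      obtain ⟨b, hb⟩ := h1 a
      refine ⟨b, ?_⟩
      rw [hb]
      group
  have hgen : Subgroup.closure {g : E3 A | ∀ x ∈ K₁, g⁻¹ * x * g ∈ K₁} = ⊤ := by
    have h1 : {g : E3 A | ∀ x ∈ K₁, g⁻¹ * x * g ∈ K₁} =
        {g : E3 A | ∀ a, ∃ b, θ a = g * θ b * g⁻¹} := Set.ext fun g => hiff g
    rw [h1]
    exact hD.gen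
  -- the images of `η` commute
  have hcomm : ∀ a b : E3 A, Φ (η a) * Φ (η b) = Φ (η b) * Φ (η a) := by
    intro a b
    refine comm_of (E3 A) K₁ hT hTK hgen k Φ h ((hiff h).2 hD.mono) (η a) (η b) ?_ ?_
    · obtain ⟨c, hc⟩ := hD.sub a
      refine ⟨c, ?_⟩
      rw [hη, hc]
      group
    · rintro x ⟨c, rfl⟩
      exact hD.comm c b
  -- the images of `η` are trivial
  have htriv : ∀ g, Φ (η g) = 1 := by
    have h1 : commutator (E3 A) ≤ (Φ.comp η).ker := by
      rw [commutator_def, Subgroup.commutator_le]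
      intro x _ y _
      rw [MonoidHom.mem_ker, map_commutatorElement, commutatorElement_eq_one_iff_mul_comm]
      exact hcomm x y
    intro g
    have h2 : g ∈ commutator (E3 A) := by rw [hD.perf]; exact Subgroup.mem_top _
    exact h1 h2
  have hker : Φ.ker = ⊤ := normal_top p q hqp Φ.ker inferInstance fun x => htriv x
  have ha : Φ a = 1 := by
    have : a ∈ Φ.ker := by rw [hker]; exact Subgroup.mem_top _
    exact this
  have h1 : (QuotientGroup.mk (1 : ∀ n, UU (k n)) : (∀ n, UU (k n)) ⧸ Nul k) =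
      QuotientGroup.mk (fun n => φ n a) := ha.symm
  exact (mk_eq k 1 _).1 h1

end Pool.Agent.N692.AS
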